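import Mathlib
import Pool.Agent.Y344.PB.Dens

/-!
# A necessary condition for Lindenstrauss' property B over the complex numbers

A stronger form of the starting result `ComplexStrictlyConvex` (no strictly convex complex
finite-dimensional space of dimension at least two has property B).

For a unit vector `y` of a finite-dimensional complex Banach space `Y` let `F(y)` be the smallest
face of the unit ball which contains `y`. Let `X = L_1(T) / H^1_0`, the space of the starting result.
If `T : X → Y` attains its norm at `x`, the range of `T` is contained in the complex linear span of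
`F(T x / ‖T‖)`: for real `|G| ≤ 1` and representatives `h_n` of `x` with `‖h_n‖_1 → 1` the vectors
`T x ± T(G h_n)` have norm at most `1 ± ∫ G |h_n| + o(1)` (for `‖T‖ = 1`), so the limit points of
`T(G h_n)` lie in the real span of `F(T x)`, and the analytic part of the starting proof applies to
every functional which kills this face.

Let `y₀` be a unit vector such that no face `F(y)` with `y` near `y₀` spans `Y`. For a functional
`f` of norm one, a surjective operator `R` from `X` to `Y` and a small number `δ > 0`,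
`T₀ = f ⊗ y₀ + δ R` is surjective, and so are the operators near `T₀`; but those of them which attain
their norms do so, up to a rotation, near `y₀`, so they are not surjective. So `Y` fails property B.
-/

set_option autoImplicit false

namespace Pool.Agent.Results.MP_152ea0_an.FacesMustSpan

/-- The bounded linear operator `T` attains its norm. -/
def NormAttaining {X Y : Type} [NormedAddCommGroup X] [NormedSpace ℂ X]
    [NormedAddCommGroup Y] [NormedSpace ℂ Y] (T : X →L[ℂ] Y) : Prop :=
  ∃ x : X, ‖x‖ = 1 ∧ ‖T x‖ = ‖T‖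

/-- Lindenstrauss' property B for a complex normed space `Y`: for every nonzero complex Banach
space `X` the norm-attaining operators are dense in the space of bounded linear operators. -/
def PropertyB (Y : Type) [NormedAddCommGroup Y] [NormedSpace ℂ Y] : Prop :=
  ∀ (X : Type) [NormedAddCommGroup X] [NormedSpace ℂ X] [CompleteSpace X] [Nontrivial X],
    Dense {T : X →L[ℂ] Y | NormAttaining T}

/-- The smallest face of the closed unit ball which contains the unit vector `y`: the vectors `z` of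
the ball such that the segment from `z` to `y` can be prolonged in the ball beyond `y`. -/
def face {Y : Type} [NormedAddCommGroup Y] [NormedSpace ℂ Y] (y : Y) : Set Y :=
  {z | ‖z‖ ≤ 1 ∧ ∃ ε : ℝ, 0 < ε ∧ ‖y + (ε : ℂ) • (y - z)‖ ≤ 1}

/-- The smallest face of the ball at `y` spans the space over the complex numbers. -/
def FaceSpans {Y : Type} [NormedAddCommGroup Y] [NormedSpace ℂ Y] (y : Y) : Prop :=
  Submodule.span ℂ (face y) = ⊤

/-- Every norm-attaining operator `T ≠ 0` from `X` to a finite-dimensional space has its range in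
the complex span of the smallest face of the unit ball which contains `T x / ‖T‖`, where `x` is any
unit vector at which the norm of `T` is attained. -/
def RangesInFaces (X : Type) [NormedAddCommGroup X] [NormedSpace ℂ X] : Prop :=
  ∀ (Y : Type) [NormedAddCommGroup Y] [NormedSpace ℂ Y] [FiniteDimensional ℂ Y]
    (T : X →L[ℂ] Y), T ≠ 0 → ∀ x : X, ‖x‖ = 1 → ‖T x‖ = ‖T‖ → ∀ x' : X,
      T x' ∈ Submodule.span ℂ (face (((‖T‖⁻¹ : ℝ) : ℂ) • T x))

theorem exists_space : ∃ (X : Type) (_ : NormedAddCommGroup X) (_ : NormedSpace ℂ X)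
    (_ : CompleteSpace X) (_ : Nontrivial X), RangesInFaces X ∧
      ∀ (Y : Type) [NormedAddCommGroup Y] [NormedSpace ℂ Y] [FiniteDimensional ℂ Y] (y₀ : Y)
        (r : ℝ), ‖y₀‖ = 1 → 0 < r → (∀ y : Y, ‖y‖ = 1 → ‖y - y₀‖ < r → ¬ FaceSpans y) →
        ¬ Dense {T : X →L[ℂ] Y | NormAttaining T} := by
  obtain ⟨X, i1, i2, i3, j, hjd, hj1, hj2, hj3⟩ := H415PB.lemD
  have hnt : Nontrivial X := by
    refine ⟨⟨j 1, 0, fun h0 => ?_⟩⟩
    have h := H415PB.j_indep j hj3 1 0 (by
      rw [one_smul, zero_smul, add_zero]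
      exact h0)
    exact one_ne_zero h.1
  refine ⟨X, i1, i2, i3, hnt, ?_, ?_⟩
  · intro Y _ _ _ T hT x hx hTx x'
    exact Pool.Agent.Y344.PB.range_le j hj1 hj2 hj3 hjd T hT x hx hTx x'
  · intro Y _ _ _ y0 r h0 hr h
    exact Pool.Agent.Y344.PB.not_dense' j hj1 hj2 hj3 hjd y0 h0 r hr h

/-- Near a unit vector of the Euclidean plane, in the maximum sum with any space, the smallest faces
do not span. -/
theorem not_spans (Z : Type) [NormedAddCommGroup Z] [NormedSpace ℂ Z]
    (y : EuclideanSpace ℂ (Fin 2) × Z) (hy : ‖y.1‖ = 1) : ¬ FaceSpans y := by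
  intro h
  -- the face consists of vectors with the same first part
  have h1 : ∀ z ∈ face y, z.1 = y.1 := by
    rintro z ⟨hz, ε, hε, hw⟩
    have hz1 : ‖z.1‖ ≤ 1 := (norm_fst_le z).trans hz
    have hw1 : ‖y.1 + (ε : ℂ) • (y.1 - z.1)‖ ≤ 1 := (norm_fst_le _).trans hw
    set w : EuclideanSpace ℂ (Fin 2) := y.1 + (ε : ℂ) • (y.1 - z.1) with hwdef
    have he : ((1 : ℂ) + ε) • y.1 = w + (ε : ℂ) • z.1 := by
      rw [hwdef]
      module
    have hn : ‖w + (ε : ℂ) • z.1‖ = 1 + ε := by
      rw [← he, norm_smul, hy, mul_one]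
      have : (1 : ℂ) + ε = ((1 + ε : ℝ) : ℂ) := by push_cast; ring
      rw [this, Complex.norm_real, Real.norm_eq_abs, abs_of_pos (by linarith)]
    have hsm : ‖(ε : ℂ) • z.1‖ ≤ ε := by
      rw [norm_smul, Complex.norm_real, Real.norm_eq_abs, abs_of_pos hε]
      exact mul_le_of_le_one_right hε.le hz1
    have hadd := norm_add_le w ((ε : ℂ) • z.1)
    have hwn : ‖w‖ = 1 := by linarith
    have hzn : ‖(ε : ℂ) • z.1‖ = ε := by linarith
    have hray : SameRay ℝ w ((ε : ℂ) • z.1) := sameRay_iff_norm_add.2 (by linarith)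
    have h2 := hray.norm_smul_eq
    rw [hwn, hzn, one_smul] at h2
    have h3 : (ε : ℂ) • z.1 = (ε : ℂ) • w := by
      rw [h2]
      exact (Complex.coe_smul ε w).symm
    have hε0 : (ε : ℂ) ≠ 0 := by exact_mod_cast hε.ne'
    have h4 : z.1 = w := smul_right_injective _ hε0 h3
    have h5 : ((1 : ℂ) + ε) • y.1 = ((1 : ℂ) + ε) • w := by
      rw [he, h4]
      module
    have h6 : (1 : ℂ) + ε ≠ 0 := by
      have : (1 : ℂ) + ε = ((1 + ε : ℝ) : ℂ) := by push_cast; ring
      rw [this]
      have : (1 + ε : ℝ) ≠ 0 := by linarith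
      exact_mod_cast this
    rw [h4]
    exact (smul_right_injective _ h6 h5).symm
  -- so the span consists of vectors with first part proportional to it
  have h2 : Submodule.span ℂ (face y) ≤
      (ℂ ∙ y.1).comap (LinearMap.fst ℂ (EuclideanSpace ℂ (Fin 2)) Z) := by
    rw [Submodule.span_le]
    intro z hz
    show z.1 ∈ ℂ ∙ y.1
    rw [h1 z hz]
    exact Submodule.mem_span_singleton_self _
  have hs : Submodule.span ℂ (face y) = ⊤ := h
  rw [hs] at h2
  have h3 : (⊤ : Submodule ℂ (EuclideanSpace ℂ (Fin 2))) ≤ ℂ ∙ y.1 := by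
    intro u _
    exact h2 (Submodule.mem_top : ((u, 0) : EuclideanSpace ℂ (Fin 2) × Z) ∈ _)
  have h4 := Submodule.finrank_mono h3
  have h5 : Module.finrank ℂ (ℂ ∙ y.1) ≤ 1 := by
    have := finrank_span_le_card (R := ℂ) ({y.1} : Set (EuclideanSpace ℂ (Fin 2)))
    simpa using this
  rw [finrank_top] at h4
  have h6 : Module.finrank ℂ (EuclideanSpace ℂ (Fin 2)) = 2 := by simp
  omega

/-- **A necessary condition for property B over the complex numbers.**
(1) If a finite-dimensional complex Banach space `Y` has property B, then the unit vectors whose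
smallest face spans `Y` are dense in the unit sphere.
(2) If `dim Y ≥ 2` and all unit vectors near some unit vector are extreme points of the unit ball,
then `Y` fails property B.
(3) For every finite-dimensional complex Banach space `Z` the maximum sum of the complex Euclidean
plane and of `Z` fails property B; so not every finite-dimensional complex space has property B.
(4) One nonzero complex Banach space `X` has `RangesInFaces` and is a witness for all `Y` in (1). -/
theorem result :
    (∀ (Y : Type) [NormedAddCommGroup Y] [NormedSpace ℂ Y] [FiniteDimensional ℂ Y],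
      PropertyB Y → ∀ (y₀ : Y) (r : ℝ), ‖y₀‖ = 1 → 0 < r →
        ∃ y : Y, ‖y‖ = 1 ∧ ‖y - y₀‖ < r ∧ FaceSpans y) ∧
    (∀ (Y : Type) [NormedAddCommGroup Y] [NormedSpace ℂ Y] [FiniteDimensional ℂ Y] (y₀ : Y)
      (r : ℝ), 2 ≤ Module.finrank ℂ Y → ‖y₀‖ = 1 → 0 < r →
      (∀ y : Y, ‖y‖ = 1 → ‖y - y₀‖ < r → y ∈ (Metric.closedBall (0 : Y) 1).extremePoints ℝ) →
      ¬ PropertyB Y) ∧
    ((∀ (Z : Type) [NormedAddCommGroup Z] [NormedSpace ℂ Z] [FiniteDimensional ℂ Z],
      ¬ PropertyB (EuclideanSpace ℂ (Fin 2) × Z)) ∧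
      ¬ ∀ (Y : Type) [NormedAddCommGroup Y] [NormedSpace ℂ Y] [FiniteDimensional ℂ Y],
        PropertyB Y) ∧
    (∃ (X : Type) (_ : NormedAddCommGroup X) (_ : NormedSpace ℂ X) (_ : CompleteSpace X)
      (_ : Nontrivial X), RangesInFaces X ∧
      ∀ (Y : Type) [NormedAddCommGroup Y] [NormedSpace ℂ Y] [FiniteDimensional ℂ Y] (y₀ : Y)
        (r : ℝ), ‖y₀‖ = 1 → 0 < r → (∀ y : Y, ‖y‖ = 1 → ‖y - y₀‖ < r → ¬ FaceSpans y) →
        ¬ Dense {T : X →L[ℂ] Y | NormAttaining T}) := by
  have h1 : ∀ (Y : Type) [NormedAddCommGroup Y] [NormedSpace ℂ Y] [FiniteDimensional ℂ Y],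
      PropertyB Y → ∀ (y₀ : Y) (r : ℝ), ‖y₀‖ = 1 → 0 < r →
        ∃ y : Y, ‖y‖ = 1 ∧ ‖y - y₀‖ < r ∧ FaceSpans y := by
    intro Y _ _ _ hB y0 r h0 hr
    by_contra hcon
    push Not at hcon
    obtain ⟨X, i1, i2, i3, i4, -, hX⟩ := exists_space
    exact hX Y y0 r h0 hr hcon (hB X)
  have h3 : ∀ (Z : Type) [NormedAddCommGroup Z] [NormedSpace ℂ Z] [FiniteDimensional ℂ Z],
      ¬ PropertyB (EuclideanSpace ℂ (Fin 2) × Z) := by
    intro Z _ _ _ hB
    obtain ⟨e, he⟩ := exists_norm_eq (EuclideanSpace ℂ (Fin 2)) (zero_le_one (α := ℝ))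
    have h0 : ‖((e, 0) : EuclideanSpace ℂ (Fin 2) × Z)‖ = 1 := by
      rw [Prod.norm_mk, norm_zero, he]
      exact max_eq_left zero_le_one
    obtain ⟨y, hy1, hy2, hy3⟩ := h1 _ hB (e, 0) (1 / 2) h0 (by norm_num)
    refine not_spans Z y ?_ hy3
    have h4 : ‖y.2‖ < 1 := by
      have h5 : ‖(y - (e, 0)).2‖ ≤ ‖y - (e, 0)‖ := norm_snd_le _
      have h6 : (y - (e, 0)).2 = y.2 := by
        show y.2 - 0 = y.2
        rw [sub_zero]
      rw [h6] at h5
      linarith
    rw [Prod.norm_def] at hy1
    rcases max_choice ‖y.1‖ ‖y.2‖ with h | h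
    · rw [h] at hy1
      exact hy1
    · rw [h] at hy1
      linarith
  refine ⟨fun Y _ _ _ hB y0 r h0 hr => h1 Y hB y0 r h0 hr, ?_, ⟨fun Z _ _ _ => h3 Z, ?_⟩,
    exists_space⟩
  · intro Y _ _ _ y0 r hY h0 hr hext hB
    obtain ⟨y, hy1, hy2, hy3⟩ := h1 Y hB y0 r h0 hr
    have h4 : Submodule.span ℂ (face y) ≤ ℂ ∙ y :=
      Pool.Agent.Y344.PB.faceSpan_extreme (hext y hy1 hy2)
    have h5 : Submodule.span ℂ (face y) = ⊤ := hy3
    rw [h5] at h4
    have h6 := Submodule.finrank_mono h4
    have h7 : Module.finrank ℂ (ℂ ∙ y) ≤ 1 := by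
      have := finrank_span_le_card (R := ℂ) ({y} : Set Y)
      simpa using this
    rw [finrank_top] at h6
    omega
  · intro h
    exact h3 ℂ (h (EuclideanSpace ℂ (Fin 2) × ℂ))

end Pool.Agent.Results.MP_152ea0_an.FacesMustSpan
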