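import Mathlib
import Pool.Agent.Y443.PB.Strong

/-!
# Lindenstrauss' property B over the complex scalars and strongly extreme points

A vector `y` is a strongly extreme point of the ball of radius `‖y‖` if `y ± z` can both be nearly
in that ball only for small `z`. In a uniformly convex space all vectors have this property, in a
finite-dimensional space the extreme points have it. Let `Y` be a complex Banach space of any
dimension at least two, such that some nonempty relatively open part of its unit sphere consists of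
strongly extreme points. Then `Y` fails property B. One space `X = L¹(𝕋)/H¹₀` works for all `Y`: if
`T : X → Y` attains its norm at `x` and `T x` is strongly extreme then `T` has rank at most one.
In particular no uniformly convex complex space of dimension at least two, finite or infinite, has
property B; the starting results treat the finite-dimensional strictly convex spaces.
-/

set_option autoImplicit false

namespace Pool.Agent.Results.MP_152ea0_an.StronglyExtreme

open Pool.Agent.Y443.PB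

/-- the bounded linear operator `T` attains its norm -/
def NormAttaining {𝕜 : Type} [RCLike 𝕜] {X Y : Type} [NormedAddCommGroup X] [NormedSpace 𝕜 X]
    [NormedAddCommGroup Y] [NormedSpace 𝕜 Y] (T : X →L[𝕜] Y) : Prop :=
  ∃ x : X, ‖x‖ = 1 ∧ ‖T x‖ = ‖T‖

/-- Lindenstrauss' property B for a normed space `Y` over `𝕜`: for every nonzero Banach space `X`
over `𝕜` the norm attaining operators are dense in the space of bounded linear operators
`X → Y`. -/
def PropertyB (𝕜 : Type) [RCLike 𝕜] (Y : Type) [NormedAddCommGroup Y] [NormedSpace 𝕜 Y] : Prop :=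
  ∀ (X : Type) [NormedAddCommGroup X] [NormedSpace 𝕜 X] [CompleteSpace X] [Nontrivial X],
    Dense {T : X →L[𝕜] Y | NormAttaining T}

/-- **Property B and strongly extreme points.** -/
theorem result :
    -- one domain space for all range spaces, of any dimension
    (∃ (X : Type) (_ : NormedAddCommGroup X) (_ : NormedSpace ℂ X) (_ : CompleteSpace X)
      (_ : Nontrivial X), ∀ (Y : Type) [NormedAddCommGroup Y] [NormedSpace ℂ Y],
        (∀ (T : X →L[ℂ] Y) (x : X), ‖x‖ = 1 → ‖T x‖ = ‖T‖ →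
          Pool.Agent.Y443.PB.StronglyExtreme (T x) →
          LinearMap.range (T : X →ₗ[ℂ] Y) ≤ Submodule.span ℂ {T x}) ∧
        (∀ y : Fin 2 → Y, LinearIndependent ℂ y → ∀ y0 : Y, ‖y0‖ = 1 → ∀ ε > 0,
          (∀ z : Y, ‖z‖ = 1 → ‖z - y0‖ < ε → Pool.Agent.Y443.PB.StronglyExtreme z) →
          ¬ Dense {T : X →L[ℂ] Y | NormAttaining T})) ∧
    -- property B fails if an open part of the sphere consists of strongly extreme points
    (∀ (Y : Type) [NormedAddCommGroup Y] [NormedSpace ℂ Y] (y : Fin 2 → Y),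
      LinearIndependent ℂ y → ∀ y0 : Y, ‖y0‖ = 1 → ∀ ε > 0,
      (∀ z : Y, ‖z‖ = 1 → ‖z - y0‖ < ε → Pool.Agent.Y443.PB.StronglyExtreme z) →
      ¬ PropertyB ℂ Y) ∧
    -- uniformly convex spaces, finite or infinite-dimensional
    (∀ (Y : Type) [NormedAddCommGroup Y] [NormedSpace ℂ Y] [UniformConvexSpace Y],
      (∀ z : Y, ‖z‖ = 1 → Pool.Agent.Y443.PB.StronglyExtreme z) ∧
      ∀ y : Fin 2 → Y, LinearIndependent ℂ y → ¬ PropertyB ℂ Y) ∧
    -- in finite dimension extreme points of the ball are strongly extreme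
    (∀ (Y : Type) [NormedAddCommGroup Y] [NormedSpace ℂ Y] [FiniteDimensional ℂ Y] (z : Y),
      ‖z‖ = 1 → z ∈ Set.extremePoints ℝ (Metric.closedBall (0 : Y) 1) →
      Pool.Agent.Y443.PB.StronglyExtreme z) ∧
    ¬ PropertyB ℂ (EuclideanSpace ℂ (Fin 2)) := by
  have main : ∃ (X : Type) (_ : NormedAddCommGroup X) (_ : NormedSpace ℂ X) (_ : CompleteSpace X)
      (_ : Nontrivial X), ∀ (Y : Type) [NormedAddCommGroup Y] [NormedSpace ℂ Y],
        (∀ (T : X →L[ℂ] Y) (x : X), ‖x‖ = 1 → ‖T x‖ = ‖T‖ →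
          Pool.Agent.Y443.PB.StronglyExtreme (T x) →
          LinearMap.range (T : X →ₗ[ℂ] Y) ≤ Submodule.span ℂ {T x}) ∧
        (∀ y : Fin 2 → Y, LinearIndependent ℂ y → ∀ y0 : Y, ‖y0‖ = 1 → ∀ ε > 0,
          (∀ z : Y, ‖z‖ = 1 → ‖z - y0‖ < ε → Pool.Agent.Y443.PB.StronglyExtreme z) →
          ¬ Dense {T : X →L[ℂ] Y | NormAttaining T}) := by
    obtain ⟨X, i1, i2, i3, j, hjd, hj1, hj2, hj3⟩ := H415PB.lemD
    have hnt : Nontrivial X := by
      refine ⟨⟨j 1, 0, fun h0 => ?_⟩⟩
      have h := H415PB.j_indep j hj3 1 0 (by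
        rw [one_smul, zero_smul, add_zero]
        exact h0)
      exact one_ne_zero h.1
    refine ⟨X, i1, i2, i3, hnt, ?_⟩
    intro Y _ _
    refine ⟨fun T x hx hTx hse => ?_, fun y hy y0 hy0 ε hε hse hD => ?_⟩
    · rintro _ ⟨x', rfl⟩
      exact range_of_stronglyExtreme j hj1 hj2 hj3 hjd T x hx hTx hse x'
    · have h0 : y0 ≠ 0 := by
        rintro rfl
        rw [norm_zero] at hy0
        exact zero_ne_one hy0
      obtain ⟨y1, hli⟩ := exists_pair y0 h0 y hy
      exact not_dense_strong j hj1 hj2 hj3 hjd y0 y1 hli hy0 ε hε hse hD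
  have hB : ∀ (Y : Type) [NormedAddCommGroup Y] [NormedSpace ℂ Y] (y : Fin 2 → Y),
      LinearIndependent ℂ y → ∀ y0 : Y, ‖y0‖ = 1 → ∀ ε > 0,
      (∀ z : Y, ‖z‖ = 1 → ‖z - y0‖ < ε → Pool.Agent.Y443.PB.StronglyExtreme z) →
      ¬ PropertyB ℂ Y := by
    intro Y _ _ y hy y0 hy0 ε hε hse h
    obtain ⟨X, i1, i2, i3, i4, hX⟩ := main
    exact (hX Y).2 y hy y0 hy0 ε hε hse (h X)
  have hU : ∀ (Y : Type) [NormedAddCommGroup Y] [NormedSpace ℂ Y] [UniformConvexSpace Y]
      (y : Fin 2 → Y), LinearIndependent ℂ y → ¬ PropertyB ℂ Y := by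
    intro Y _ _ _ y hy
    have hn : ‖y 0‖ ≠ 0 := norm_ne_zero_iff.2 (hy.ne_zero 0)
    refine hB Y y hy ((((‖y 0‖)⁻¹ : ℝ) : ℂ) • y 0) ?_ 1 one_pos
      (fun z hz _ => stronglyExtreme_of_uniform z hz)
    rw [norm_smul, Complex.norm_real, norm_inv, norm_norm, inv_mul_cancel₀ hn]
  refine ⟨main, hB, fun Y _ _ _ => ⟨fun z hz => stronglyExtreme_of_uniform z hz, hU Y⟩,
    fun Y _ _ _ z hz he => stronglyExtreme_of_extreme z hz he, ?_⟩
  exact hU (EuclideanSpace ℂ (Fin 2)) _ (EuclideanSpace.basisFun (Fin 2) ℂ).toBasis.linearIndependent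

end Pool.Agent.Results.MP_152ea0_an.StronglyExtreme
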